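import Pool.Agent.Lib.MP_c77da8_nt.CH.As9

/-!
# Long geometric progressions in the shifted primes `P + 1`, one ratio for a positive proportion of the integers

For all `k` and `ε > 0` there is `r₀` such that for all `r ≥ r₀` and distinct primes `q_0, ..., q_r` there are `c > 0` and `N₀` such
that for every `N ≥ N₀` there is one integer `a = ∏ q_i^(e_i)`, `1 ≤ e_i ≤ (log N)^ε`, `e_i ≤ e_0^ε` for `i ≠ 0`, such that at least
`c N` of the integers `1 ≤ n ≤ N` have exponents `b_i ≤ (log N)^ε`, `b_i ≤ e_0^ε` for `i ≠ 0`, for which the `k` numbers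
`n ∏ q_i^(b_i) a^j - 1`, `0 ≤ j < k`, are all prime: Cunningham chains of every length `k` with an integer ratio `a > 1` in place
of `2`; for `q_0 = 2` the ratio is a power of `2` times a factor `b` with `log b` at most a constant times `(log a)^ε`.
-/

set_option autoImplicit false

namespace Pool.Agent.Results.MP_c77da8_nt.GeometricProgressions

open Finset

open Classical in
theorem result (k : ℕ) (ε : ℝ) (hε : 0 < ε) : ∃ r₀ : ℕ, ∀ r ≥ r₀, ∀ q : Fin (r + 1) → ℕ,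
    (∀ i, (q i).Prime) → Function.Injective q → ∃ c : ℝ, 0 < c ∧ ∃ N₀ : ℕ, ∀ N ≥ N₀, ∃ e : Fin (r + 1) → ℕ,
      (∀ i, 1 ≤ e i ∧ (e i : ℝ) ≤ Real.log N ^ ε) ∧ (∀ i, i ≠ 0 → (e i : ℝ) ≤ (e 0 : ℝ) ^ ε) ∧
      c * N ≤ (((Icc 1 N).filter fun n => ∃ b : Fin (r + 1) → ℕ,
        (∀ i, (b i : ℝ) ≤ Real.log N ^ ε) ∧ (∀ i, i ≠ 0 → (b i : ℝ) ≤ (e 0 : ℝ) ^ ε) ∧
        ∀ j < k, (n * (∏ i, q i ^ b i) * (∏ i, q i ^ e i) ^ j - 1).Prime).card : ℝ) :=
  Pool.CH.one_ratio k ε hε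

end Pool.Agent.Results.MP_c77da8_nt.GeometricProgressions
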