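import Pool.Agent.Lib.MP_c77da8_nt.CP.FinH

/-!
# Primes `q^e n - 1` with the exponents `e` near the members of an arithmetic progression, and exact geometric progressions

For every `k ≥ 1` there are `C` and `n₀` such that the following holds for every `T ≥ 1`.

(A) For all `q ≥ 2` and `R ≥ 1` there are `R ≤ d ≤ n₀ R` and pairwise disjoint sets `E_j` (`j < k`) of `T` exponents
`e ∈ [d j, d j + C^T)` such that for every length `ℓ` there are infinitely many `n` with some `a ≥ 2` for which all the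
`k T ℓ` numbers `q^e a^i n - 1` (`j < k`, `e ∈ E_j`, `i < ℓ`) are prime.

(B) For every length `ℓ` there are `t₀`, `D` and `c > 0` such that for all `ε > 0` and all large `N` (in terms of
`k, T, ℓ, ε`; `L = log log N`) the following holds for all integers `m_(j,x) ≥ 1` (`j < k`, `x < n₀`), all sets `F` of at
least `C^T` positive integers `h` with `h ∏ m_(j,x) ≤ L` and all `g ≥ 1` with `log g ≤ (log N)^(1/10000)` whose radical
is `≤ L`.  There are a nonempty set `X` of indices `x`, sets `H_j ⊆ F` of `T` elements, `1 ≤ t ≤ t₀` and `s ≥ 2` with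
`log s ≤ D L log L` such that, with `M_j = ∏_(x ∈ X) m_(j,x)` and `a = (g s)^t`, the `k T` numbers `h M_j` (`h ∈ H_j`) are
different and for at least `c N` of the `n ≤ N` there is `b ≥ 1`, `log b ≤ (1 + log g) (L + log g)^(2 + ε)`, for which all
the `k T ℓ` numbers `h M_j n b a^i - 1` (`j < k`, `h ∈ H_j`, `i < ℓ`) are prime.

(C) Let `m, F` be fixed and `g = g(N)` with the bounds in (B) for the large `N`.  Then the set `X` and the sets `H_j` can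
be chosen once, for all the lengths `ℓ` at the same time and for infinitely many `N`.

For example rows `2^(d j) 3^(d' j')` (`m_((j,j'),x) = 2^(r_x j) 3^(r'_x j')`, `d = ∑_X r`, `d' = ∑_X r'`), rows `a^j` with `a` one
of the products of some of `n₀` given integers (`m_(j,x) = q_x^j`).
-/

set_option autoImplicit false

namespace Pool.Agent.Results.MP_c77da8_nt.GridPatterns

open Finset

open Classical in
theorem result (k : ℕ) (hk : 1 ≤ k) : ∃ C n₀ : ℕ, ∀ T : ℕ, 1 ≤ T →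
    (∀ q R : ℕ, 2 ≤ q → 1 ≤ R → ∃ d : ℕ, R ≤ d ∧ d ≤ n₀ * R ∧ ∃ E : Fin k → Finset ℕ,
      (∀ j, (E j).card = T ∧ ∀ e ∈ E j, d * j ≤ e ∧ e < d * j + C ^ T) ∧ (∀ j j', j ≠ j' → Disjoint (E j) (E j')) ∧
      ∀ ℓ : ℕ, {n : ℕ | ∃ a : ℕ, 2 ≤ a ∧ ∀ j, ∀ e ∈ E j, ∀ i < ℓ, (q ^ e * a ^ i * n - 1).Prime}.Infinite) ∧
    (∀ ℓ : ℕ, ∃ (t₀ : ℕ) (D c : ℝ), 0 < c ∧ ∀ ε : ℝ, 0 < ε → ∃ N₀ : ℕ, ∀ N ≥ N₀,
      ∀ (m : Fin k → Fin n₀ → ℕ) (F : Finset ℕ) (g : ℕ), (∀ j x, 1 ≤ m j x) →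
      (∀ h ∈ F, 1 ≤ h ∧ ((h * ∏ j, ∏ x, m j x : ℕ) : ℝ) ≤ Real.log (Real.log N)) →
      C ^ T ≤ F.card → 1 ≤ g → ((∏ p ∈ g.primeFactors, p : ℕ) : ℝ) ≤ Real.log (Real.log N) →
      Real.log g ≤ Real.log N ^ (1 / 10000 : ℝ) →
      ∃ X : Finset (Fin n₀), X.Nonempty ∧ ∃ H : Fin k → Finset ℕ, (∀ j, H j ⊆ F ∧ (H j).card = T) ∧
        (∀ j j', ∀ h ∈ H j, ∀ h' ∈ H j', h * ∏ x ∈ X, m j x = h' * ∏ x ∈ X, m j' x → j = j' ∧ h = h') ∧
        ∃ t s : ℕ, 1 ≤ t ∧ t ≤ t₀ ∧ 2 ≤ s ∧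
          Real.log s ≤ D * Real.log (Real.log N) * Real.log (Real.log (Real.log N)) ∧
          c * N ≤ (((Icc 1 N).filter fun n => ∃ b : ℕ, 1 ≤ b ∧
            Real.log b ≤ (1 + Real.log g) * (Real.log (Real.log N) + Real.log g) ^ (2 + ε) ∧
            ∀ j, ∀ h ∈ H j, ∀ i < ℓ,
              (h * (∏ x ∈ X, m j x) * (n * b * ((g * s) ^ t) ^ i) - 1).Prime).card : ℝ)) ∧
    ∀ (m : Fin k → Fin n₀ → ℕ) (F : Finset ℕ) (g : ℕ → ℕ), (∀ j x, 1 ≤ m j x) → (∀ h ∈ F, 1 ≤ h) →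
      C ^ T ≤ F.card → (∃ N₁ : ℕ, ∀ N ≥ N₁, 1 ≤ g N ∧
        ((∏ p ∈ (g N).primeFactors, p : ℕ) : ℝ) ≤ Real.log (Real.log N) ∧
        Real.log (g N) ≤ Real.log N ^ (1 / 10000 : ℝ)) →
      ∃ X : Finset (Fin n₀), X.Nonempty ∧ ∃ H : Fin k → Finset ℕ, (∀ j, H j ⊆ F ∧ (H j).card = T) ∧
        (∀ j j', ∀ h ∈ H j, ∀ h' ∈ H j', h * ∏ x ∈ X, m j x = h' * ∏ x ∈ X, m j' x → j = j' ∧ h = h') ∧
        ∀ ℓ : ℕ, ∃ (t₀ : ℕ) (D c : ℝ), 0 < c ∧ ∀ ε : ℝ, 0 < ε → ∀ N₀ : ℕ, ∃ N ≥ N₀,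
          ∃ t s : ℕ, 1 ≤ t ∧ t ≤ t₀ ∧ 2 ≤ s ∧
            Real.log s ≤ D * Real.log (Real.log N) * Real.log (Real.log (Real.log N)) ∧
            c * N ≤ (((Icc 1 N).filter fun n => ∃ b : ℕ, 1 ≤ b ∧
              Real.log b ≤ (1 + Real.log (g N)) * (Real.log (Real.log N) + Real.log (g N)) ^ (2 + ε) ∧
              ∀ j, ∀ h ∈ H j, ∀ i < ℓ,
                (h * (∏ x ∈ X, m j x) * (n * b * ((g N * s) ^ t) ^ i) - 1).Prime).card : ℝ) := by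
  obtain ⟨k', rfl⟩ : ∃ k', k = k' + 1 := ⟨k - 1, by omega⟩
  exact Pool.CP.final_H k'

end Pool.Agent.Results.MP_c77da8_nt.GridPatterns
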