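import Pool.Agent.Lib.MP_c77da8_nt.CM.CorM

/-!
# Geometric progressions of every length `k` in the shifted primes `P + 1`, the ratio prescribed up to a tiny factor

For every `k ≥ 2` there are `T ≥ 1`, `C` and `c > 0` with the following properties.

(1) For all `B`, `ε > 0` and all large `N` there is an odd `m > (log N)^B` such that for every `g ≥ 1` which is not a multiple of
`m`, `log g ≤ (log N)^(1/3000)`, there are `1 ≤ t ≤ T` and `s ≥ 2`, `log s ≤ C log log N log log log N`, such that for the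
ratio `a = (g s)^t`: (i) for some `b ≥ 1`, `log b ≤ (1 + log g) (log log N + log g)^(2 + ε)`, the `k` numbers `n b a^j - 1`,
`0 ≤ j < k`, are all prime for at least `c N / (log N)^k` of the `n ≤ N`; (ii) at least `c N` of the `n ≤ N` have such a `b`.

(2) `g = 2^E`: for all large `E` there are `1 ≤ t ≤ T`, `s ≥ 2`, `log s ≤ C log E log log E`, and `n ≥ 1` such that
`n ((2^E s)^t)^j - 1` is prime for all `j < k`.

(3) For every `B` and all large `X` all but at most `X / (log X)^B` of the `g ≤ X` have `1 ≤ t ≤ T`, `s ≥ 2`,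
`log s ≤ C log log X log log log X`, and `n ≥ 1` such that `n ((g s)^t)^j - 1` is prime for all `j < k`.

These are Cunningham chains `p_(j+1) = a p_j + (a - 1)` of every length `k` with the ratio `a = (g s)^t` in place of `2`.
-/

set_option autoImplicit false

namespace Pool.Agent.Results.MP_c77da8_nt.PrescribedRatios

open Finset

open Classical in
theorem result (k : ℕ) (hk : 2 ≤ k) : ∃ (T : ℕ) (C c : ℝ), 1 ≤ T ∧ 0 < c ∧
    (∀ (B : ℕ) (ε : ℝ), 0 < ε → ∃ N₀ : ℕ, ∀ N ≥ N₀, ∃ m : ℕ, Odd m ∧ Real.log N ^ B < m ∧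
      ∀ g : ℕ, 1 ≤ g → ¬ m ∣ g → Real.log g ≤ Real.log N ^ (1 / 3000 : ℝ) →
        ∃ t s : ℕ, 1 ≤ t ∧ t ≤ T ∧ 2 ≤ s ∧
          Real.log s ≤ C * Real.log (Real.log N) * Real.log (Real.log (Real.log N)) ∧
          (∃ b : ℕ, 1 ≤ b ∧ Real.log b ≤ (1 + Real.log g) * (Real.log (Real.log N) + Real.log g) ^ (2 + ε) ∧
            c * N / Real.log N ^ k ≤
              (((Icc 1 N).filter fun n => ∀ j < k, (n * b * ((g * s) ^ t) ^ j - 1).Prime).card : ℝ)) ∧
          c * N ≤ (((Icc 1 N).filter fun n => ∃ b : ℕ, 1 ≤ b ∧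
            Real.log b ≤ (1 + Real.log g) * (Real.log (Real.log N) + Real.log g) ^ (2 + ε) ∧
            ∀ j < k, (n * b * ((g * s) ^ t) ^ j - 1).Prime).card : ℝ)) ∧
    (∃ E₀ : ℕ, ∀ E ≥ E₀, ∃ t s n : ℕ, 1 ≤ t ∧ t ≤ T ∧ 2 ≤ s ∧
      Real.log s ≤ C * Real.log E * Real.log (Real.log E) ∧ 1 ≤ n ∧
      ∀ j < k, (n * ((2 ^ E * s) ^ t) ^ j - 1).Prime) ∧
    ∀ B : ℕ, ∃ X₀ : ℕ, ∀ X ≥ X₀,
      (((Icc 1 X).filter fun g => ¬ ∃ t s n : ℕ, 1 ≤ t ∧ t ≤ T ∧ 2 ≤ s ∧
        Real.log s ≤ C * Real.log (Real.log X) * Real.log (Real.log (Real.log X)) ∧ 1 ≤ n ∧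
        ∀ j < k, (n * ((g * s) ^ t) ^ j - 1).Prime).card : ℝ) ≤ X / Real.log X ^ B := by
  obtain ⟨k', rfl⟩ : ∃ k', k = k' + 2 := ⟨k - 2, by omega⟩
  exact Pool.CM.final_all k'

end Pool.Agent.Results.MP_c77da8_nt.PrescribedRatios
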