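import Mathlib
import Pool.Agent.Lib.MP_c77da8_nt.CS.WordsL

/-!
# Chains of primes `p_(j+1) = a p_j + (a - 1) h` of every length `k`, `a` a fixed power of `2`, one `h ≤ (log x)^L`

A chain of `k` primes with `p_(j+1) = a p_j + (a - 1) h` is a prime `p` (or a number `n = p + h`) for which the `k` numbers
`a^j (p + h) - h`, `j < k`, are prime.  Cunningham chains of the first kind are the case `a = 2`, `h = 1`.

Call `k + 1` positive integers `M_0, ..., M_k` rich at `x` (with the parameters `q`, `L`, `c`) if, with `Y = (log x)^L`,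
(i) for at least `c x / log x` primes `p ≤ x` there are at least `c Y / (log x)^k` numbers `h ≤ Y`, `h ≡ 1 (mod q)`, such that
`p = M_0 n - h` for some `n` and all the `k + 1` numbers `M_j n - h` are prime; and
(ii) for at least `c Y` of the `h ≤ Y`, `h ≡ 1 (mod q)`, the `k + 1` numbers `M_j n - h` are all prime for at least
`c x / (log x)^(k+1)` of the `n ≤ x`.
Both `c Y / (log x)^k` and `c x / (log x)^(k+1)` have the order of magnitude predicted by Dickson's conjecture.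

(1) For every `k` there are `N`, `L₀` such that for all `q ≥ 1` and all positive integers `m_(i,j)` (`i < N`, `j < k + 2`), such
that for every nonempty set `X` of indices `i` the `k + 2` products `M_j = ∏_(i ∈ X) m_(i,j)` are different, there is `c > 0`
with the property: for every `L ≥ L₀` (a) there is ONE nonempty `X` for which `M_0, ..., M_(k+1)` are rich at infinitely many
`x`; (b) for every sufficiently large `x` there is a nonempty `X` for which they are rich at `x`.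
For `m_(i,j) = 2^j`: the numbers `M_j = a^j`, `a = 2^d`, `1 ≤ d ≤ N`, and (i) gives chains as above which begin with `p`.
For `m_(i,j) = m_j`: any `k + 2` different numbers `m_j`, and `M_j = m_j^d`, `1 ≤ d ≤ N`.

(2) For every `k` there are `δ > 0`, `L₀` such that for every finite set `A` of positive integers and every `q ≥ 1` there is
`c > 0` with: for every `L ≥ L₀`, every sufficiently large `x` and all weights `ω ≥ 0` on `A` some `A' ⊆ A` of weight
`≥ δ ω(A)` has the property that any `k + 2` different elements of `A'` are rich at `x`.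

(1) is deduced from (2) with the density Hales-Jewett theorem.  (Subtraction in `ℕ` is truncated, `0` is not prime.)
-/

set_option autoImplicit false

namespace Pool.Agent.Results.MP_c77da8_nt.SharedShift

/-- (i) for at least `c x / log x` primes `p ≤ x` at least `c (log x)^L / (log x)^k` of the `1 ≤ h ≤ (log x)^L`,
`h ≡ 1 (mod q)`, have `p = M_0 n - h` and all `M_j n - h` prime for some `n`; (ii) at least `c (log x)^L` of these `h` have
the property that all `M_j n - h` are prime for at least `c x / (log x)^(k+1)` of the `n ≤ x` -/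
def Rich {k : ℕ} (M : Fin (k + 1) → ℕ) (q L : ℕ) (c : ℝ) (x : ℕ) : Prop :=
  c * x / Real.log x ≤ (({p : ℕ | p ≤ x ∧ p.Prime ∧ c * (Real.log x ^ L / Real.log x ^ k) ≤
    (({h : ℕ | 1 ≤ h ∧ (h : ℝ) ≤ Real.log x ^ L ∧ h ≡ 1 [MOD q] ∧
      ∃ n, p = M 0 * n - h ∧ ∀ j, (M j * n - h).Prime}.ncard : ℕ) : ℝ)}.ncard : ℕ) : ℝ) ∧
  c * Real.log x ^ L ≤ (({h : ℕ | 1 ≤ h ∧ (h : ℝ) ≤ Real.log x ^ L ∧ h ≡ 1 [MOD q] ∧
    c * x / Real.log x ^ (k + 1) ≤
      (({n : ℕ | n ≤ x ∧ ∀ j, (M j * n - h).Prime}.ncard : ℕ) : ℝ)}.ncard : ℕ) : ℝ)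

/-- the pigeonhole principle -/
private theorem pigeon {α : Type} [Finite α] (P : ℕ → α → Prop) (x₀ : ℕ) (h : ∀ x ≥ x₀, ∃ a, P x a) :
    ∃ a, ∀ x₁ : ℕ, ∃ x ≥ x₁, P x a := by
  by_contra hcon
  push Not at hcon
  choose f hf using hcon
  have hfin : (Set.range f).Finite := Set.finite_range f
  obtain ⟨b, hb⟩ := hfin.bddAbove
  obtain ⟨a, ha⟩ := h (max x₀ b) (le_max_left _ _)
  exact hf a (max x₀ b) ((hb ⟨a, rfl⟩).trans (le_max_right _ _)) ha

theorem result :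
    (∀ k : ℕ, ∃ N L₀ : ℕ, ∀ q : ℕ, 1 ≤ q → ∀ m : Fin N → Fin (k + 2) → ℕ, (∀ i j, 1 ≤ m i j) →
      (∀ X : Finset (Fin N), X.Nonempty → Function.Injective fun j => ∏ i ∈ X, m i j) → ∃ c : ℝ, 0 < c ∧ ∀ L ≥ L₀,
        (∃ X : Finset (Fin N), X.Nonempty ∧ ∀ x₀ : ℕ, ∃ x ≥ x₀, Rich (fun j => ∏ i ∈ X, m i j) q L c x) ∧
        ∃ x₀ : ℕ, ∀ x ≥ x₀, ∃ X : Finset (Fin N), X.Nonempty ∧ Rich (fun j => ∏ i ∈ X, m i j) q L c x) ∧
    (∀ k : ℕ, ∃ (δ : ℝ) (L₀ : ℕ), 0 < δ ∧ ∀ A : Finset ℕ, (∀ a ∈ A, 1 ≤ a) → ∀ q : ℕ, 1 ≤ q → ∃ c : ℝ, 0 < c ∧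
      ∀ L ≥ L₀, ∃ x₀ : ℕ, ∀ x ≥ x₀, ∀ ω : ℕ → ℝ, (∀ a, 0 ≤ ω a) →
        ∃ A' ⊆ A, δ * ∑ a ∈ A, ω a ≤ ∑ a ∈ A', ω a ∧
          ∀ M : Fin (k + 2) → ℕ, Function.Injective M → (∀ j, M j ∈ A') → Rich M q L c x) := by
  refine ⟨fun k => ?_, Pool.CS.rows_lx⟩
  obtain ⟨N, L₀, H⟩ := Pool.CS.words_l k
  refine ⟨N, L₀, fun q hq m hm hinj => ?_⟩
  obtain ⟨c, hc, H⟩ := H q hq m hm hinj
  refine ⟨c, hc, fun L hL => ?_⟩
  obtain ⟨x₀, H⟩ := H L hL
  refine ⟨?_, x₀, H⟩
  obtain ⟨X, hX⟩ := pigeon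
    (fun x (X : {X : Finset (Fin N) // X.Nonempty}) => Rich (fun j => ∏ i ∈ X.1, m i j) q L c x) x₀
    (fun x hx => by
      obtain ⟨X, hX, h⟩ := H x hx
      exact ⟨⟨X, hX⟩, h⟩)
  exact ⟨X.1, X.2, hX⟩

end Pool.Agent.Results.MP_c77da8_nt.SharedShift
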